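import Mathlib
import Pool.Agent.R486.TC.FinPts
import Pool.Agent.R486.TC.NoPt
import Pool.Agent.R486.TC.Cmp

/-!
# The algorithm: the criterion of `CubicTwistsCriterion` without the numbers `2 m³` (helper112)
-/

set_option autoImplicit false

open scoped Classical

namespace Pool.Agent.U112.CU

open Pool.Agent.R486.TC (NoSplit Good bex peq pmul pcube good_primrec)

/-- twice a cube -/
def Twice (A : ℕ) : Prop := ∃ m < A + 1, A = 2 * m ^ 3

/-- the criterion -/
def Yes (A : ℕ) : Prop := Good A ∧ ¬ Twice A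

theorem twice_primrec : PrimrecPred Twice := by
  refine bex (f := fun A : ℕ => A + 1) Primrec.succ ?_
  exact peq Primrec.snd (pmul (Primrec.const 2) (pcube Primrec.fst))

theorem yes_primrec : PrimrecPred Yes := good_primrec.and twice_primrec.not

theorem yes_computable : ComputablePred Yes := yes_primrec.computablePred

theorem class_iff (D : ℕ) : Pool.Agent.R486.TC.Class D ↔ Pool.Agent.Y703.CT.Cls D := by
  unfold Pool.Agent.R486.TC.Class Pool.Agent.Y703.CT.Cls Pool.Agent.Y703.CT.Base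
  constructor
  · rintro ⟨h1, h2, h3, h4, h5, h6⟩
    exact ⟨⟨h1, h3, h2⟩, h4, h5, h6⟩
  · rintro ⟨⟨h1, h3, h2⟩, h4, h5, h6⟩
    exact ⟨h1, h2, h3, h4, h5, h6⟩

theorem noSplit_iff (D : ℕ) : NoSplit D ↔ Pool.Agent.Y703.CT.NoSplit D := Iff.rfl

/-- all the rational points are on the diagonal (as in the starting hand-in `CubicTwistsCriterion`) -/
theorem points {A : ℤ} (h : Good A.natAbs) {X Y : ℚ} (hXY : X ^ 3 + Y ^ 3 = A) : X = Y := by
  obtain ⟨D, n, h1, h2, h3, h4⟩ := h
  have hcf : ∀ p : ℕ, p.Prime → ¬ p ^ 3 ∣ D := h3.2.1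
  have hD1 : 1 < D := by
    have e0 := h3.1
    have e1 := h3.2.2.2.1
    rcases Nat.lt_or_ge 1 D with h | h
    · exact h
    · exfalso
      have : D = 1 := by omega
      rw [this] at e1
      norm_num at e1
  have hfin := Pool.Agent.R486.TC.fin_of ((class_iff D).1 h3) ((noSplit_iff D).1 h4)
  have hn : (n : ℚ) ≠ 0 := by exact_mod_cast h2
  have key : ∀ s : ℚ, (s = 1 ∨ s = -1) → (A : ℚ) = s * (D * (n : ℚ) ^ 3) → X = Y := by
    intro s hs hA
    have hs3 : s ^ 3 = s := by rcases hs with rfl | rfl <;> norm_num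
    have hss : s * s = 1 := by rcases hs with rfl | rfl <;> norm_num
    have hs0 : s ≠ 0 := by rcases hs with rfl | rfl <;> norm_num
    have h5 : (s * X / n) ^ 3 + (s * Y / n) ^ 3 = D := by
      have h6 : (s * X / n) ^ 3 + (s * Y / n) ^ 3 = s ^ 3 * (X ^ 3 + Y ^ 3) / (n : ℚ) ^ 3 := by
        field_simp
      rw [h6, hXY, hA, hs3]
      have h7 : s * (s * (D * (n : ℚ) ^ 3)) = D * (n : ℚ) ^ 3 := by
        rw [← mul_assoc, hss, one_mul]
      rw [h7]
      field_simp
    have h8 := Pool.Agent.R486.TC.diag_of_finite hcf hD1 hfin h5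
    rw [div_left_inj' hn] at h8
    exact mul_left_cancel₀ hs0 h8
  rcases Int.natAbs_eq A with hA | hA
  · refine key 1 (Or.inl rfl) ?_
    rw [one_mul, hA, h1]
    push_cast
    ring
  · refine key (-1) (Or.inr rfl) ?_
    rw [hA, h1]
    push_cast
    ring

/-- a natural number which is twice the cube of a rational number is twice a cube -/
theorem twice_of {A : ℕ} {X : ℚ} (h : (A : ℚ) = 2 * X ^ 3) : Twice A := by
  have hd : (X.den : ℚ) ≠ 0 := by exact_mod_cast X.den_nz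
  have h1 : (A : ℚ) * (X.den : ℚ) ^ 3 = 2 * (X.num : ℚ) ^ 3 := by
    have h2 : X * X.den = X.num := Rat.mul_den_eq_num X
    rw [← h2, h]
    ring
  have h2 : (A : ℤ) * (X.den : ℤ) ^ 3 = 2 * X.num ^ 3 := by exact_mod_cast h1
  have h3 : A * X.den ^ 3 = 2 * X.num.natAbs ^ 3 := by
    have := congrArg Int.natAbs h2
    simpa [Int.natAbs_mul, Int.natAbs_pow] using this
  have hc : Nat.Coprime (X.den ^ 3) (X.num.natAbs ^ 3) :=
    Nat.Coprime.pow 3 3 X.reduced.symm
  have h4 : X.den ^ 3 ∣ 2 := hc.dvd_of_dvd_mul_right (by rw [← h3]; exact Dvd.intro_left A rfl)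
  have h5 : X.den = 1 := by
    have h6 := Nat.le_of_dvd (by norm_num) h4
    rcases Nat.lt_or_ge X.den 2 with h7 | h7
    · have := X.den_pos
      omega
    · have := Nat.pow_le_pow_left h7 3
      omega
  rw [h5, one_pow, mul_one] at h3
  refine ⟨X.num.natAbs, ?_, h3⟩
  have h6 : X.num.natAbs ≤ X.num.natAbs ^ 3 := Nat.le_self_pow (by norm_num) _
  omega

/-- soundness: no rational points on `X³ + Y³ = A` and on `X³ + Y³ = -A` -/
theorem sound {A : ℕ} (h : Yes A) (X Y : ℚ) :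
    X ^ 3 + Y ^ 3 ≠ ((A : ℤ) : ℚ) ∧ X ^ 3 + Y ^ 3 ≠ ((-(A : ℤ) : ℤ) : ℚ) := by
  constructor
  · intro hXY
    have h1 := points (A := (A : ℤ)) (by simpa using h.1) hXY
    refine h.2 (twice_of (X := X) ?_)
    rw [← h1] at hXY
    push_cast at hXY
    linarith
  · intro hXY
    have h1 := points (A := -(A : ℤ)) (by simpa using h.1) hXY
    refine h.2 (twice_of (X := -X) ?_)
    rw [← h1] at hXY
    push_cast at hXY
    have : (-X) ^ 3 = -X ^ 3 := by ring
    rw [this]
    linarith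

theorem ne_zero {A : ℕ} (h : Yes A) : A ≠ 0 := by
  obtain ⟨D, n, h1, h2, h3, -⟩ := h.1
  rw [h1]
  exact Nat.mul_ne_zero h3.1 (pow_ne_zero 3 h2)

/-- on the class the criterion is `NoSplit` -/
theorem good_iff {N : ℕ} (h : Pool.Agent.Y703.CT.Cls N) :
    Good N ↔ Pool.Agent.Y703.CT.NoSplit N := by
  constructor
  · rintro ⟨D, n, h1, h2, -, h4⟩
    have hn : n = 1 := by
      by_contra hn
      obtain ⟨p, hp, hpn⟩ := Nat.exists_prime_and_dvd hn
      refine h.1.2.2 p hp ?_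
      rw [h1]
      exact (pow_dvd_pow_of_dvd hpn 3).mul_left D
    rw [hn, one_pow, mul_one] at h1
    rw [h1]
    exact h4
  · intro h4
    exact ⟨N, 1, by ring, one_ne_zero, (class_iff N).2 h, h4⟩

theorem not_twice_mul {D l : ℕ} (hl : l.Prime) (h2 : l ≠ 2) (hlD : ¬ l ∣ D) : ¬ Twice (D * l) := by
  rintro ⟨m, -, h⟩
  have h3 : l ∣ 2 * m ^ 3 := by rw [← h]; exact Dvd.intro_left D rfl
  have h4 : l ∣ m := by
    rcases hl.dvd_mul.1 h3 with h5 | h5
    · exact absurd ((Nat.prime_dvd_prime_iff_eq hl Nat.prime_two).1 h5) h2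
    · exact hl.dvd_of_dvd_pow h5
  have h5 : l ^ 2 * l ∣ D * l := by
    have h6 : l ^ 3 ∣ D * l := by
      rw [h]
      exact (pow_dvd_pow_of_dvd h4 3).mul_left 2
    rwa [pow_succ] at h6
  have h6 : l ^ 2 ∣ D := Nat.dvd_of_mul_dvd_mul_right hl.pos h5
  exact hlD ((dvd_pow_self l (by norm_num)).trans h6)

theorem yes_mul {D l : ℕ} (hl : l.Prime) (h2 : l ≠ 2) (hlD : ¬ l ∣ D) :
    Yes (D * l) ↔ Good (D * l) := by
  unfold Yes
  have := not_twice_mul hl h2 hlD
  tauto

end Pool.Agent.U112.CU
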